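import Pool.Agent.Lib_helper24.K4H.Abs
import Pool.Agent.Lib_helper24.K4D2.Closed
import Pool.Agent.Lib_helper2.K4.Bridge

/-!
L2, L3, L4 of the statement `HeckeK4`.
-/

set_option autoImplicit false
set_option linter.unusedSectionVars false

namespace Pool.Agent.MK4

open scoped TensorProduct

section H

variable {F : Type*} [Field F] [CharZero F] [IsAlgClosed F] [DecidableEq F]
  {W : WeierstrassCurve.Affine F}

/-- `Dec` is the same in the sealed definitions and in the library -/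
lemma dec_eq : (Dec F : Set (HK F)) = (K4M.Dec F : Set (K4M.HK F)) := by
  have h : ∀ (x : B2 F), HasD x 0 ↔ K4M.de F x = 0 := fun x => hasD_iff x 0
  have e : {z : HK F | ∃ (x : B2 F) (u : FT F), HasD x 0 ∧ z = hk x u} =
      {z : HK F | ∃ (x : B2 F) (u : FT F), K4M.de F x = 0 ∧ z = hk x u} := by
    ext z
    constructor
    · rintro ⟨x, u, hx, hz⟩; exact ⟨x, u, (h x).mp hx, hz⟩
    · rintro ⟨x, u, hx, hz⟩; exact ⟨x, u, (h x).mpr hx, hz⟩
  unfold Dec
  rw [e]
  rfl

/-- the symbol of the four lines -/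
lemma fT_eq (hW : W.Δ ≠ 0) {P Q : To W} (hQ : Q + Q = P) (a b c d : To W) :
    K4D2.fT (K4D2.h2_closed hW) P a b c d = cr (a + Q) (b + Q) (c + Q) (d + Q) := by
  unfold K4D2.fT
  rw [K4ParP.ff_eq (K4D2.h2_closed hW) (R := (Q : W.Point)) (by rw [← hQ]; rfl)]
  rw [cr_eq]
  rfl

lemma CR_shift {B : Type*} [AddCommGroup B] [Module ℚ B] (t : To W → To W → B) {P Q : To W}
    (hQ : Q + Q = P) (a b c d : To W) : K4ParP.CR t P a b c d =
      th t (b + Q) (c + Q) (d + Q) - th t (a + Q) (c + Q) (d + Q) +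
        th t (a + Q) (b + Q) (d + Q) - th t (a + Q) (b + Q) (c + Q) := by
  have h : ∀ x y z : To W, th t (x + Q) (y + Q) (z + Q) = K4ParP.th t P x y z := by
    intro x y z
    unfold th K4ParP.th
    rw [← hQ]
    congr 1
    · congr 1
      · congr 1
        · congr 1 <;> abel
        · congr 1 <;> abel
      · congr 1 <;> abel
    · congr 1 <;> abel
  rw [h, h, h, h]
  rfl

/-- (L2) the relation of the pencil `0` gives all pencils on the torsion points -/
theorem tri_iff_T (hW : W.Δ ≠ 0) {t : To W → To W → B2 F} :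
    Tri cr t ↔ (K4ParP.IsT (B := K4M.B2 F) t ∧
      ∀ P a b c d : To W, K4D2.fT (K4D2.h2_closed hW) P a b c d =
        K4ParP.CR (B := K4M.B2 F) t P a b c d) := by
  constructor
  · intro h
    refine ⟨⟨h.swap, h.rot, h.even⟩, fun P a b c d => ?_⟩
    obtain ⟨Q, hQ⟩ := K4M.TD.half (K4D2.td_closed hW) P
    rw [fT_eq hW hQ, CR_shift (B := K4M.B2 F) t hQ]
    exact h.tri _ _ _ _
  · rintro ⟨h, hC⟩
    refine ⟨h.swap, h.rot, h.even, fun a b c d => ?_⟩
    have h0 := hC 0 a b c d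
    have hQ : (0 : To W) + 0 = 0 := add_zero 0
    rw [fT_eq hW hQ, CR_shift (B := K4M.B2 F) t hQ] at h0
    simp only [add_zero] at h0
    exact h0

/-- the relations modulo `Dec` -/
lemma distD (hW : W.Δ ≠ 0) {t : To W → To W → B2 F} (ht : Tri cr t) :
    K4TL.Dist (K4D2.TF (K4M.TP W)) (fun a b : K4M.TP W => (K4M.Dec F).mkQ
      (K4M.hk (F := F) (t a b) (K4M.gT b - K4M.gT a))) := by
  obtain ⟨h1, h2⟩ := (tri_iff_T hW).mp ht
  exact K4D2.dist_closed hW h1 h2

/-- (L3) -/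
theorem dist2_T (hW : W.Δ ≠ 0) {t : To W → To W → B2 F} (ht : Tri cr t) :
    Dist2 (Dec F : Set (HK F)) (fun a b : To W => hk (t a b) (K4M.gT b - K4M.gT a)) := by
  rw [dec_eq]
  exact K4D2.dist2_of (N := K4M.Dec F) (distD hW ht)

/-- (L4) -/
theorem hecke_T (hW : W.Δ ≠ 0) {t : To W → To W → B2 F} (ht : Tri cr t) :
    Hecke (Dec F : Set (HK F)) (fun a b : To W => hk (t a b) (K4M.gT b - K4M.gT a)) := by
  rw [dec_eq]
  exact K4D2.hecke_of (N := K4M.Dec F) (K4D2.td_closed hW) (distD hW ht)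

end H

end Pool.Agent.MK4
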