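import Pool.Agent.Lib_helper2.K4.DefsH
import Pool.Agent.Lib_helper24.K4D2.ModDec

/-!
The `finsum` forms of the distribution and Hecke relations.
-/

set_option autoImplicit false
set_option linter.unusedSectionVars false

namespace Pool.Agent.K4D2

open Finset

section fs

variable {A V : Type*} [AddCommGroup A] [∀ n : ℕ, Fintype (tor A (n + 1))]

lemma finsum_tor [AddCommMonoid V] {k : ℕ} (hk : 0 < k) (f : A → V) :
    ∑ᶠ i : {i : A // k • i = 0}, f i = ∑ i ∈ TF A k, f i := by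
  have h1 : ∑ᶠ i : {i : A // k • i = 0}, f i = ∑ᶠ i ∈ {i : A | k • i = 0}, f i :=
    finsum_set_coe_eq_finsum_mem {i : A | k • i = 0}
  have h2 : {i : A | k • i = 0} = ((TF A k : Finset A) : Set A) := by
    ext i
    rw [Set.mem_setOf_eq, mem_coe, mem_TF hk]
  rw [h1, h2, finsum_mem_coe_finset]

lemma el_coe {l : ℕ} (hl : 0 < l) {C : AddSubgroup A} (hC : Nat.card C = l) :
    ((Pool.Agent.K4TL.el (TF A) l C : Finset A) : Set A) = (C : Set A) := by
  classical
  ext c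
  unfold Pool.Agent.K4TL.el
  rw [mem_coe, mem_filter, mem_TF hl]
  constructor
  · exact fun h => h.2
  · intro h
    refine ⟨?_, h⟩
    haveI : Finite C := Nat.finite_of_card_ne_zero (by rw [hC]; exact hl.ne')
    have h1 : Nat.card C • (⟨c, h⟩ : C) = 0 := card_nsmul_eq_zero'
    rw [hC] at h1
    exact congrArg (fun z : C => (z : A)) h1

lemma finsum_el [AddCommMonoid V] {l : ℕ} (hl : 0 < l) {C : AddSubgroup A} (hC : Nat.card C = l)
    (f : A → V) : ∑ᶠ c : C, f c = ∑ c ∈ Pool.Agent.K4TL.el (TF A) l C, f c := by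
  have h1 : ∑ᶠ c : C, f c = ∑ᶠ c ∈ (C : Set A), f c := finsum_set_coe_eq_finsum_mem (C : Set A)
  rw [h1, ← el_coe hl hC, finsum_mem_coe_finset]

lemma finsum_subs [AddCommMonoid V] (hT : TD A) {l : ℕ} (hl : l.Prime) (f : AddSubgroup A → V) :
    ∑ᶠ C : {C : AddSubgroup A // Nat.card C = l}, f C =
      ∑ C ∈ Pool.Agent.K4TL.subs (TF A) l, f C := by
  haveI : Fact l.Prime := ⟨hl⟩
  have h1 : ∑ᶠ C : {C : AddSubgroup A // Nat.card C = l}, f C =
      ∑ᶠ C ∈ {C : AddSubgroup A | Nat.card C = l}, f C :=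
    finsum_set_coe_eq_finsum_mem {C : AddSubgroup A | Nat.card C = l}
  have h2 : {C : AddSubgroup A | Nat.card C = l} =
      ((Pool.Agent.K4TL.subs (TF A) l : Finset (AddSubgroup A)) : Set (AddSubgroup A)) := by
    ext C
    rw [Set.mem_setOf_eq, mem_coe, Pool.Agent.K4TL.mem_subs (isTors_TF hT)]
  rw [h1, h2, finsum_mem_coe_finset]

lemma finsum_merel [AddCommMonoid V] {l : ℕ} (f : ℕ × ℕ × ℕ × ℕ → V) :
    ∑ᶠ M ∈ Pool.Agent.MK4.Merel l, f M = ∑ M ∈ Pool.Agent.K4TL.XX l, f M := by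
  have h2 : Pool.Agent.MK4.Merel l = ((Pool.Agent.K4TL.XX l : Finset (ℕ × ℕ × ℕ × ℕ)) : Set _) := by
    ext ⟨p, r, q, s⟩
    rw [mem_coe, Pool.Agent.K4TL.mem_XX]
    exact Iff.rfl
  rw [h2, finsum_mem_coe_finset]

variable [AddCommGroup V] [Module ℚ V] {N : Submodule ℚ V} {e : A → A → V}

theorem dist2_of (hd : Pool.Agent.K4TL.Dist (TF A) (fun a b => N.mkQ (e a b))) :
    Pool.Agent.MK4.Dist2 (N : Set V) e := by
  intro k hk a b
  have h := hd.d2 k hk a b
  rw [SetLike.mem_coe, ← Submodule.Quotient.mk_eq_zero, ← Submodule.mkQ_apply, map_sub, map_nsmul,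
    finsum_tor hk (fun i => e a (b + i)), map_sum, ← h, Nat.cast_smul_eq_nsmul, sub_self]

theorem hecke_of (hT : TD A) (hd : Pool.Agent.K4TL.Dist (TF A) (fun a b => N.mkQ (e a b))) :
    Pool.Agent.MK4.Hecke (N : Set V) e := by
  intro l hl a b
  haveI : Fact l.Prime := ⟨hl⟩
  have hc : (TF A l).card = l ^ 2 := by
    obtain ⟨n, rfl⟩ := Nat.exists_eq_succ_of_ne_zero hl.ne_zero
    exact card_TF hT n
  have h := Pool.Agent.K4TL.hecke (isTors_TF hT) hc hd a b
  unfold Pool.Agent.K4TL.ev at h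
  have e1 : ∑ᶠ (C : {C : AddSubgroup A // Nat.card C = l}) (c : C.1) (c' : C.1),
      e (a + c) (b + c') = ∑ C ∈ Pool.Agent.K4TL.subs (TF A) l,
        ∑ c ∈ Pool.Agent.K4TL.el (TF A) l C, ∑ c' ∈ Pool.Agent.K4TL.el (TF A) l C,
          e (a + c) (b + c') := by
    rw [← finsum_subs hT hl (fun C => ∑ c ∈ Pool.Agent.K4TL.el (TF A) l C,
      ∑ c' ∈ Pool.Agent.K4TL.el (TF A) l C, e (a + c) (b + c'))]
    refine finsum_congr fun C => ?_
    rw [← finsum_el hl.pos C.2 (fun c => ∑ c' ∈ Pool.Agent.K4TL.el (TF A) l C.1,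
      e (a + c) (b + c'))]
    refine finsum_congr fun c => ?_
    exact finsum_el hl.pos C.2 (fun c' => e (a + c) (b + c'))
  rw [SetLike.mem_coe, ← Submodule.Quotient.mk_eq_zero, ← Submodule.mkQ_apply, map_sub, map_nsmul,
    e1, finsum_merel, map_sum, map_sum, ← h, ← Nat.cast_smul_eq_nsmul ℚ]
  simp only [map_sum]
  rw [sub_self]

end fs

end Pool.Agent.K4D2
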